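import Pool.Agent.K3h83.IN.Stm5

/-! Projective representations (brick M5). -/

set_option autoImplicit false
set_option linter.all false

open scoped BigOperators Classical

noncomputable section

namespace Pool.Agent.K3h4.OP

open Pool.Agent.K3h83.IN

section
variable {F G V : Type} [Field F] [Group G] [Finite G] [AddCommGroup V] [Module F V]

theorem mem_TP {ρ : Representation F G V} {P : Subgroup G} [i : Fintype P] {v : V} :
    v ∈ TP ρ P ↔ ∃ w, ∑ x : P, ρ (x : G) w = v := by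
  obtain rfl : i = Fintype.ofFinite P := Subsingleton.elim _ _
  unfold TP
  simp only [LinearMap.mem_range, LinearMap.sum_apply]

theorem Tr_apply [i : Fintype G] {ρ : Representation F G V} {θ : V →ₗ[F] V} {v : V} :
    Tr ρ θ v = ∑ g : G, ρ g (θ (ρ g⁻¹ v)) := by
  obtain rfl : i = Fintype.ofFinite G := Subsingleton.elim _ _
  unfold Tr
  simp only [LinearMap.sum_apply, LinearMap.comp_apply]

/-- the decomposition into cosets -/
def ce (P : Subgroup G) : (G ⧸ P) × P → G := fun z => z.1.out * z.2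

theorem ce_bij (P : Subgroup G) : Function.Bijective (ce P) := by
  constructor
  · rintro ⟨q, y⟩ ⟨q', y'⟩ h
    unfold ce at h
    beta_reduce at h
    have h1 : q = q' := by
      have h2 := congrArg (fun g : G => (g : G ⧸ P)) h
      beta_reduce at h2
      rw [QuotientGroup.mk_mul_of_mem _ y.2, QuotientGroup.mk_mul_of_mem _ y'.2,
        QuotientGroup.out_eq', QuotientGroup.out_eq'] at h2
      exact h2
    subst h1
    have h3 := mul_left_cancel h
    exact Prod.ext rfl (Subtype.ext h3)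
  · intro g
    obtain ⟨y, hy⟩ := QuotientGroup.mk_out_eq_mul P g
    refine ⟨((g : G ⧸ P), y⁻¹), ?_⟩
    unfold ce
    beta_reduce
    rw [hy, Subgroup.coe_inv, mul_inv_cancel_right]

theorem sum_cosets {M : Type} [AddCommMonoid M] [Fintype G] (P : Subgroup G) [Fintype P]
    [Fintype (G ⧸ P)] (f : G → M) :
    ∑ g : G, f g = ∑ y : P, ∑ q : G ⧸ P, f (q.out * y) := by
  have h1 := Fintype.sum_bijective (ce P) (ce_bij P) (fun z => f (ce P z)) f fun _ => rfl
  rw [← h1, Fintype.sum_prod_type, Finset.sum_comm]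
  rfl

end

theorem t_M5 : M5 := by
  intro p _ F _ G _ _ P m ρ hθ v hv
  obtain ⟨θ, hθ⟩ := hθ
  have := Fintype.ofFinite G
  have := Fintype.ofFinite P
  have := Fintype.ofFinite (G ⧸ P)
  rw [mem_TP]
  refine ⟨∑ q : G ⧸ P, ρ q.out⁻¹ (θ (ρ q.out v)), ?_⟩
  have h1 : v = Tr ρ θ v := by
    rw [hθ]
    rfl
  conv_rhs => rw [h1, Tr_apply]
  have h2 : ∑ g : G, ρ g (θ (ρ g⁻¹ v)) = ∑ g : G, ρ g⁻¹ (θ (ρ g v)) := by
    refine Fintype.sum_equiv (Equiv.inv G) _ _ fun g => ?_
    rw [Equiv.inv_apply, inv_inv]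
  rw [h2, sum_cosets P]
  have h3 : ∀ y : P, ρ (y : G) (∑ q : G ⧸ P, ρ q.out⁻¹ (θ (ρ q.out v))) =
      ∑ q : G ⧸ P, ρ (q.out * (y⁻¹ : P) : G)⁻¹ (θ (ρ (q.out * (y⁻¹ : P) : G) v)) := by
    intro y
    rw [map_sum]
    refine Finset.sum_congr rfl fun q _ => ?_
    have h4 : ρ (q.out * (y⁻¹ : P) : G) v = ρ q.out v := by
      rw [map_mul]
      show ρ q.out (ρ ((y⁻¹ : P) : G) v) = _
      rw [hv _ (y⁻¹).2]
    rw [h4, mul_inv_rev, map_mul, Subgroup.coe_inv, inv_inv]
    rfl
  rw [Finset.sum_congr rfl fun y _ => h3 y]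
  exact Fintype.sum_equiv (Equiv.inv P) _ _ fun y => rfl

end Pool.Agent.K3h4.OP
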