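import Pool.Agent.K3h4.OP.M5

/-! The inequality between the numbers of characters and of classes (brick M6). -/

set_option autoImplicit false
set_option linter.all false

open scoped BigOperators Classical

noncomputable section

namespace Pool.Agent.K3h4.OP

open Pool.Agent.K3h83.IN Pool.Agent.Helper884 Pool.Agent.K3h3.KB Pool.Agent.K3h3.MK
open Pool.Agent.H254R3.IN (IsIrr mem_Irr RF red charP_RF)
open IC (Irr)

/-! ### the residue field -/

theorem exists_O {p : ℕ} (hp : p.Prime) : ∃ O : ValuationSubring ℂ, (p : ℂ) ∈ O.nonunits := by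
  obtain ⟨A, hA⟩ : ∃ A : Subring ℂ, A = (Int.castRingHom ℂ).range := ⟨_, rfl⟩
  have h3 : (p : ℂ) ∈ A := by
    rw [hA]
    exact ⟨p, by simp⟩
  have hI : Ideal.span {(⟨p, h3⟩ : A)} ≠ ⊤ := by
    intro htop
    have h1 : (1 : A) ∈ Ideal.span {(⟨p, h3⟩ : A)} := by rw [htop]; trivial
    rw [Ideal.mem_span_singleton'] at h1
    obtain ⟨⟨a, ha'⟩, ha⟩ := h1
    have h2 : a * p = 1 := congrArg Subtype.val ha
    rw [hA] at ha'
    obtain ⟨n, hn⟩ := ha'
    rw [← hn] at h2
    have h4 : n * p = 1 := by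
      have : ((n * p : ℤ) : ℂ) = ((1 : ℤ) : ℂ) := by
        push_cast
        simpa using h2
      exact_mod_cast this
    have h5 : (p : ℤ) ∣ 1 := ⟨n, by rw [mul_comm]; exact h4.symm⟩
    have h6 : p ∣ 1 := by exact_mod_cast h5
    exact hp.one_lt.ne' (Nat.dvd_one.1 h6)
  obtain ⟨B, _, hB⟩ := Ideal.image_subset_nonunits_valuationSubring _ hI
  exact ⟨B, hB ⟨⟨p, h3⟩, Ideal.subset_span rfl, rfl⟩⟩

theorem rf_closed (V : ValuationSubring ℂ) : IsAlgClosed (RF V) := by
  refine IsAlgClosed.of_exists_root _ ?_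
  intro p hp hirr
  have hl : p ∈ Polynomial.lifts (IsLocalRing.residue V) := by
    rw [Polynomial.lifts_iff_coeff_lifts]
    intro n
    exact IsLocalRing.residue_surjective (p.coeff n)
  obtain ⟨q, hq, hdeg, hmon⟩ := Polynomial.lifts_and_degree_eq_and_monic hl hp
  have hd : (q.map (algebraMap V ℂ)).degree ≠ 0 := by
    rw [hmon.degree_map, hdeg]
    exact hirr.degree_pos.ne'
  obtain ⟨x, hx⟩ := IsAlgClosed.exists_root (q.map (algebraMap V ℂ)) hd
  have hint : IsIntegral V x := by
    refine ⟨q, hmon, ?_⟩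
    rw [← Polynomial.eval_map]
    exact hx
  obtain ⟨y, hy⟩ := IsIntegrallyClosed.isIntegral_iff.mp hint
  refine ⟨IsLocalRing.residue V y, ?_⟩
  have h0 : Polynomial.eval y q = 0 := by
    apply IsFractionRing.injective V ℂ
    rw [map_zero, ← hx, ← hy, Polynomial.eval_map, Polynomial.eval₂_hom]
  rw [← hq, Polynomial.eval_map, Polynomial.eval₂_hom, h0, map_zero]

/-! ### characters -/

theorem card_conj_le (G : Type) [Group G] [Fintype G] :
    Nat.card (ConjClasses G) ≤ (Irr G).card := by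
  have := Fintype.ofFinite (ConjClasses G)
  let L : ({χ : G → ℂ // χ ∈ Irr G} → ℂ) →ₗ[ℂ] (ConjClasses G → ℂ) :=
    { toFun := fun c C => ∑ χ : {χ : G → ℂ // χ ∈ Irr G}, c χ * χ.1 C.out
      map_add' := by
        intro c c'
        funext C
        rw [Pi.add_apply, ← Finset.sum_add_distrib]
        exact Finset.sum_congr rfl fun χ _ => by rw [Pi.add_apply, add_mul]
      map_smul' := by
        intro a c
        funext C
        rw [Pi.smul_apply, RingHom.id_apply, smul_eq_mul, Finset.mul_sum]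
        exact Finset.sum_congr rfl fun χ _ => by rw [Pi.smul_apply, smul_eq_mul, mul_assoc] }
  have hL : Function.Surjective L := by
    intro f
    have hcl : IC.IsClass (fun g : G => f (ConjClasses.mk g)) := by
      intro g y
      beta_reduce
      congr 1
      exact ConjClasses.mk_eq_mk_iff_isConj.2 (isConj_iff.2 ⟨y⁻¹, by group⟩)
    have h1 := IC.expand _ hcl
    refine ⟨fun χ => IC.B (fun g : G => f (ConjClasses.mk g)) χ.1, ?_⟩
    funext C
    have h2 := congrFun h1 C.out
    rw [Finset.sum_apply] at h2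
    have h3 : ConjClasses.mk C.out = C := Quotient.out_eq C
    beta_reduce at h2
    rw [h3] at h2
    rw [h2]
    show ∑ χ : {χ : G → ℂ // χ ∈ Irr G}, _ = _
    rw [← Finset.sum_coe_sort (Irr G)]
    rfl
  have h1 := LinearMap.finrank_le_finrank_of_surjective (f := L) hL
  rw [Module.finrank_fintype_fun_eq_card, Module.finrank_fintype_fun_eq_card,
    Fintype.card_coe, ← Nat.card_eq_fintype_card] at h1
  exact h1

theorem irr_fin (G : Type) [Group G] [Finite G] : Finite {χ : G → ℂ // IsIrr χ} := by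
  have := Fintype.ofFinite G
  have h : {χ : G → ℂ | IsIrr χ}.Finite := IC.irr_finite
  exact h.to_subtype

theorem nat_card_irr (G : Type) [Group G] [Fintype G] :
    Nat.card {χ : G → ℂ // IsIrr χ} = (Irr G).card := by
  have h : ∀ χ : G → ℂ, IsIrr χ ↔ χ ∈ Irr G := fun χ => mem_Irr.symm
  rw [Nat.card_congr (Equiv.subtypeEquivRight h), Nat.card_eq_fintype_card, Fintype.card_coe]

theorem dz_fin (p : ℕ) (G : Type) [Group G] [Finite G] : Finite (Dz p G) := by
  have := irr_fin G
  exact Finite.of_injective (fun χ : Dz p G => (⟨χ.1, χ.2.1⟩ : {χ : G → ℂ // IsIrr χ}))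
    fun χ ψ h => by
      have h' := congrArg Subtype.val h
      exact Subtype.ext h'

theorem ndeg_dvd {G : Type} [Group G] [Finite G] {χ : G → ℂ} (h : IsIrr χ) :
    ndeg χ ∣ Nat.card G := by
  have := Fintype.ofFinite G
  exact Pool.Agent.Y63.AWC.deg_dvd h (ndeg_cast h).symm

/-! ### representations -/

section
variable {F : Type} [Field F]

theorem Occ_iso {p : ℕ} {G V V' W : Type} [Group G] [Finite G] [AddCommGroup V]
    [Module F V] [AddCommGroup V'] [Module F V'] [AddCommGroup W] [Module F W] {P : Sylow p G}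
    {ρ : Representation F G V} {ρ' : Representation F G V'} {τ : Representation F (NN P) W}
    (e : V ≃ₗ[F] V') (he : ∀ (g : G) (v : V), e (ρ g v) = ρ' g (e v)) (h : Occ P ρ τ) :
    Occ P ρ' τ := by
  have := Fintype.ofFinite P
  have key : ∀ v, v ∈ TP ρ (P : Subgroup G) ↔ e v ∈ TP ρ' (P : Subgroup G) := by
    intro v
    rw [mem_TP, mem_TP]
    constructor
    · rintro ⟨w, rfl⟩
      refine ⟨e w, ?_⟩
      rw [map_sum]
      exact Finset.sum_congr rfl fun x _ => (he _ _).symm
    · rintro ⟨w, hw⟩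
      refine ⟨e.symm w, e.injective ?_⟩
      rw [map_sum, ← hw]
      refine Finset.sum_congr rfl fun x _ => ?_
      rw [he, e.apply_symm_apply]
  obtain ⟨f, h1, h2, w, h3⟩ := h
  refine ⟨e.toLinearMap ∘ₗ f, fun u x hx => ?_, fun k u => ?_, w, fun h4 => h3 ((key _).2 h4)⟩
  · show ρ' x (e (f u)) = e (f u)
    rw [← he, h1 u x hx]
  · show ρ' k (e (f u)) - e (f (τ k u)) ∈ _
    rw [← he, ← map_sub]
    exact (key _).1 (h2 k u)

theorem NonIso_symm {G V V' : Type} [Group G] [AddCommGroup V]
    [Module F V] [AddCommGroup V'] [Module F V']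
    {ρ : Representation F G V} {ρ' : Representation F G V'} (h : NonIso ρ ρ') : NonIso ρ' ρ := by
  rintro ⟨e, he⟩
  refine h ⟨e.symm, fun g v => ?_⟩
  apply e.injective
  rw [he, e.apply_symm_apply, e.apply_symm_apply]

theorem infl_irr {N Q W : Type} [Group N] [Group Q] [AddCommGroup W] [Module F W] {π : N →* Q}
    (hπ : Function.Surjective π) {σ : Representation F Q W} (hσ : σ.IsIrreducible) :
    Representation.IsIrreducible (MonoidHom.comp σ π : Representation F N W) := by
  let e : Subrepresentation (MonoidHom.comp σ π : Representation F N W) ≃o Subrepresentation σ :=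
    { toFun := fun s => ⟨s.toSubmodule, fun q v hv => by
        obtain ⟨g, rfl⟩ := hπ q
        exact s.apply_mem_toSubmodule g hv⟩
      invFun := fun s => ⟨s.toSubmodule, fun g v hv => s.apply_mem_toSubmodule (π g) hv⟩
      left_inv := fun s => rfl
      right_inv := fun s => rfl
      map_rel_iff' := Iff.rfl }
  exact e.isSimpleOrder_iff.2 hσ

end

theorem t_M6 (h1 : M1) (h2 : M2) (h3 : M3) (h4 : M4) (h5 : M5) : M6 := by
  intro p hp G _ _ P hP
  obtain ⟨O, hO⟩ := exists_O hp.out
  have hac : IsAlgClosed (RF O) := rf_closed O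
  have hch : CharP (RF O) p := charP_RF hO
  have hfac : (Nat.card G).factorization p = 1 := by
    have h6 := P.card_eq_multiplicity
    rw [hP] at h6
    exact (Nat.pow_right_injective hp.out.two_le (by beta_reduce; rw [pow_one]; exact h6)).symm
  -- the first part
  obtain ⟨n1, ρ1, a1, a2, a3⟩ := h2 p O hO G
  -- the second part
  obtain ⟨Q, hQ⟩ : ∃ Q : Type, Q = (NN P ⧸ (P : Subgroup G).subgroupOf (NN P)) := ⟨_, rfl⟩
  have hQp : ¬ p ∣ Nat.card (NN P ⧸ (P : Subgroup G).subgroupOf (NN P)) := by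
    intro h6
    have h7 : ¬ p ∣ (P : Subgroup G).index := P.not_dvd_index
    apply h7
    have h8 : (P : Subgroup G).relIndex (NN P) * (NN P).index = (P : Subgroup G).index :=
      Subgroup.relIndex_mul_index Subgroup.le_normalizer
    rw [← h8]
    exact Dvd.dvd.mul_right h6 _
  obtain ⟨n2, σ, b1, b2, -⟩ := h2 p O hO (NN P ⧸ (P : Subgroup G).subgroupOf (NN P))
  obtain ⟨π, hπ⟩ : ∃ π, π = QuotientGroup.mk' ((P : Subgroup G).subgroupOf (NN P)) := ⟨_, rfl⟩
  have hπs : Function.Surjective π := by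
    rw [hπ]
    exact QuotientGroup.mk'_surjective _
  let τ : ∀ i, Representation (RF O) (NN P) (Fin (n2 i) → RF O) := fun i =>
    MonoidHom.comp (σ i) π
  have hτi : ∀ i, (τ i).IsIrreducible := fun i => infl_irr hπs (b1 i)
  have hτt : ∀ i, ∀ x : NN P, (x : G) ∈ P → τ i x = 1 := by
    intro i x hx
    have h6 : π x = 1 := by
      rw [hπ, QuotientGroup.mk'_apply, QuotientGroup.eq_one_iff, Subgroup.mem_subgroupOf]
      exact hx
    show σ i (π x) = 1
    rw [h6, map_one]
  have hτn : ∀ i j, i ≠ j → NonIso (τ i) (τ j) := by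
    rintro i j hij ⟨e, he⟩
    refine b2 i j hij ⟨e, fun q v => ?_⟩
    obtain ⟨x, rfl⟩ := hπs q
    exact he x v
  choose m2 ρ2 c1 c2 using fun i => h3 p (RF O) G P hP (n2 i) (τ i) (hτi i) (hτt i)
  -- the index set
  have := dz_fin p G
  have := dz_fin p (NN P ⧸ (P : Subgroup G).subgroupOf (NN P))
  have key := h1 p (RF O) G
    (Dz p G ⊕ Dz p (NN P ⧸ (P : Subgroup G).subgroupOf (NN P))) (Sum.elim n1 m2)
    (fun i => match i with
      | .inl a => ρ1 a
      | .inr b => ρ2 b)
    (by
      rintro (i | i)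
      · exact a1 i
      · exact c1 i)
    (by
      have hmix : ∀ i j, NonIso (ρ1 i) (ρ2 j) := by
        rintro i j ⟨e, he⟩
        have h6 : Occ P (ρ1 i) (τ j) := by
          refine Occ_iso e.symm (fun g v => ?_) (c2 j)
          apply e.injective
          rw [he, e.apply_symm_apply, e.apply_symm_apply]
        obtain ⟨f, d1, -, w, d3⟩ := h6
        exact d3 (h5 p (RF O) G P (n1 i) (ρ1 i) (a3 i) (d1 w))
      rintro (i | i) (j | j) hij
      · exact a2 i j fun h => hij (by rw [h])
      · exact hmix i j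
      · exact NonIso_symm (hmix j i)
      · rintro ⟨e, he⟩
        have hne : i ≠ j := fun h => hij (by rw [h])
        exact h4 p (RF O) G P hP (m2 j) (ρ2 j) (c1 j) (n2 i) (n2 j) (τ i) (τ j) (hτi i) (hτi j)
          (hτt i) (hτt j) (Occ_iso e he (c2 i)) (c2 j) (hτn i j hne))
  rw [Nat.card_sum] at key
  refine le_trans (add_le_add ?_ ?_) key
  · refine Nat.card_le_card_of_injective
      (fun χ : {χ : G → ℂ // IsIrr χ ∧ (ndeg χ : ZMod p) = 0} => (⟨χ.1, χ.2.1, ?_⟩ : Dz p G)) ?_
    · obtain ⟨χ, hχ, h0⟩ := χ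
      rw [ZMod.natCast_eq_zero_iff] at h0
      intro h6
      obtain ⟨k, hk⟩ := ndeg_dvd hχ
      rw [hk, Nat.mul_div_cancel_left _ (ndeg_pos hχ)] at h6
      have h7 : p ^ 2 ∣ Nat.card G := by
        rw [hk, pow_two]
        exact mul_dvd_mul h0 h6
      have h8 := (hp.out.pow_dvd_iff_le_factorization Nat.card_pos.ne').1 h7
      omega
    · intro χ ψ h
      have h6 := congrArg Subtype.val h
      exact Subtype.ext h6
  · have := Fintype.ofFinite (NN P ⧸ (P : Subgroup G).subgroupOf (NN P))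
    refine (card_conj_le _).trans ?_
    rw [← nat_card_irr]
    have := irr_fin (NN P ⧸ (P : Subgroup G).subgroupOf (NN P))
    refine Nat.card_le_card_of_injective (fun χ => (⟨χ.1, χ.2, ?_⟩ : Dz p _)) ?_
    · intro h6
      apply hQp
      obtain ⟨k, hk⟩ := ndeg_dvd χ.2
      rw [hk, Nat.mul_div_cancel_left _ (ndeg_pos χ.2)] at h6
      rw [hk]
      exact Dvd.dvd.mul_left h6 _
    · intro χ ψ h
      have h6 := congrArg Subtype.val h
      exact Subtype.ext h6

end Pool.Agent.K3h4.OP
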